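import Pool.Agent.Y157.PS.Stm2

/-!
Weierstrass preparation over a complete discrete valuation ring.
-/

set_option autoImplicit false
set_option linter.all false

open Polynomial FF

namespace Pool.Agent.Y809.PS

open Pool.Agent.Y157.PS

theorem db : S_DB := by
  intro O _ _ _ _ P hP
  obtain ⟨ϖ, hϖ⟩ := IsDiscreteValuationRing.exists_irreducible O
  have h1 : ∃ n, (∀ i, ϖ ^ n ∣ PowerSeries.coeff i P) ∧
      ∃ i, ¬ ϖ ^ (n + 1) ∣ PowerSeries.coeff i P := by
    by_contra hcon
    push Not at hcon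
    have h2 : ∀ n i, ϖ ^ n ∣ PowerSeries.coeff i P := by
      intro n
      induction n with
      | zero => intro i; simp
      | succ n ih => exact hcon n ih
    apply hP
    ext i
    rw [map_zero]
    by_contra h3
    obtain ⟨m, u, hu⟩ := IsDiscreteValuationRing.eq_unit_mul_pow_irreducible h3 hϖ
    have h4 := h2 (m + 1) i
    rw [hu, pow_succ] at h4
    have h5 : ϖ ^ m * ϖ ∣ ϖ ^ m * u := by rwa [mul_comm (u : O)] at h4
    have h6 : ϖ ∣ u := by
      rwa [mul_dvd_mul_iff_left (pow_ne_zero m hϖ.ne_zero)] at h5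
    exact hϖ.not_isUnit (isUnit_of_dvd_unit h6 u.isUnit)
  obtain ⟨n, hn, i0, hi0⟩ := h1
  choose f hf using hn
  have hPf : P = PowerSeries.C (ϖ ^ n) * PowerSeries.mk f := by
    ext i
    rw [PowerSeries.coeff_C_mul, PowerSeries.coeff_mk, hf i]
  have hne : (PowerSeries.mk f).map (IsLocalRing.residue O) ≠ 0 := by
    intro h0
    have h7 := congrArg (PowerSeries.coeff i0) h0
    rw [PowerSeries.coeff_map, PowerSeries.coeff_mk, map_zero, IsLocalRing.residue_eq_zero_iff,
      hϖ.maximalIdeal_eq, Ideal.mem_span_singleton] at h7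
    apply hi0
    rw [hf i0, pow_succ]
    exact mul_dvd_mul_left _ h7
  obtain ⟨D, U, H⟩ := PowerSeries.exists_isWeierstrassFactorization hne
  refine ⟨ϖ ^ n, D, U, pow_ne_zero n hϖ.ne_zero, H.isDistinguishedAt.monic,
    fun i hi => H.isDistinguishedAt.mem hi, H.isUnit, ?_⟩
  rw [hPf, H.eq_mul, mul_assoc]

end Pool.Agent.Y809.PS
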