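import Pool.Agent.Y809.PS.K0b

/-!
Valuation rings of `κ(x, Y)`: uniformisers.
-/

set_option autoImplicit false
set_option linter.all false

open Polynomial FF

namespace Pool.Agent.Y809.PS

open Pool.Agent.Y157.PS

section

variable {κ R Ω : Type} [Field κ] [IsAlgClosed κ] [Field R] [Field Ω] [Algebra κ R]
  [Algebra R Ω] [Algebra κ Ω] [IsScalarTower κ R Ω] {W : ValuationSubring Ω}
  (hc : ∀ c : κ, algebraMap κ Ω c ∈ W)

omit [IsAlgClosed κ] in
/-- the values of the elements of `R(Y)` at a branch point -/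
theorem val_branch [Algebra.IsAlgebraic R Ω] {ℓ : ℕ} (hℓ : 0 < ℓ) {Y : Ω} {G : R}
    (hY : Y ^ ℓ = algebraMap R Ω G) (hY0 : Y ≠ 0) (hY1 : W.valuation Y < 1)
    (hR : ∀ z : R, z ≠ 0 → ∃ n : ℤ, W.valuation (algebraMap R Ω z) = W.valuation Y ^ (ℓ * n))
    (z : Ω) (hz : z ∈ IntermediateField.adjoin R {Y}) (hz0 : z ≠ 0) :
    ∃ n : ℤ, W.valuation z = W.valuation Y ^ n := by
  have g0 : W.valuation Y ≠ 0 := (_root_.map_ne_zero _).2 hY0
  have hYi : IsIntegral R Y := Algebra.IsIntegral.isIntegral Y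
  obtain ⟨P, hP⟩ : ∃ P : R[X], z = aeval Y P := by
    have h1 : z ∈ (IntermediateField.adjoin R {Y}).toSubalgebra := hz
    rw [IntermediateField.adjoin_simple_toSubalgebra_of_isAlgebraic hYi.isAlgebraic,
      Algebra.adjoin_singleton_eq_range_aeval] at h1
    obtain ⟨P, hP⟩ := h1
    exact ⟨P, hP.symm⟩
  have hm : (X ^ ℓ - C G : R[X]).Monic := monic_X_pow_sub_C G hℓ.ne'
  obtain ⟨Q, hQ⟩ : ∃ Q : R[X], Q = P %ₘ (X ^ ℓ - C G) := ⟨_, rfl⟩
  have hQz : z = aeval Y Q := by
    have h1 := modByMonic_add_div P (X ^ ℓ - C G : R[X])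
    rw [hP, hQ]
    conv_lhs => rw [← h1]
    rw [map_add, map_mul, map_sub, map_pow, aeval_X, aeval_C, hY, sub_self, zero_mul, add_zero]
  have hQd : ∀ i, ℓ ≤ i → Q.coeff i = 0 := by
    intro i hi
    apply coeff_eq_zero_of_degree_lt
    have h1 := degree_modByMonic_lt P hm
    rw [← hQ, degree_X_pow_sub_C hℓ G] at h1
    exact lt_of_lt_of_le h1 (by exact_mod_cast hi)
  have hsum : z = ∑ i ∈ Finset.range ℓ, algebraMap R Ω (Q.coeff i) * Y ^ i := by
    have hdeg : Q.natDegree < ℓ := by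
      by_contra h
      push Not at h
      have h1 := hQd _ h
      rw [coeff_natDegree, leadingCoeff_eq_zero] at h1
      apply hz0
      rw [hQz, h1, map_zero]
    rw [hQz, aeval_eq_sum_range' hdeg]
    refine Finset.sum_congr rfl fun i _ => ?_
    rw [Algebra.smul_def]
  classical
  obtain ⟨S, hS⟩ : ∃ S, S = (Finset.range ℓ).filter (fun i => Q.coeff i ≠ 0) := ⟨_, rfl⟩
  have hSne : S.Nonempty := by
    by_contra h
    rw [Finset.not_nonempty_iff_eq_empty] at h
    apply hz0
    rw [hsum]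
    refine Finset.sum_eq_zero fun i hi => ?_
    by_cases h1 : Q.coeff i = 0
    · rw [h1, map_zero, zero_mul]
    · have : i ∈ S := by rw [hS]; exact Finset.mem_filter.2 ⟨hi, h1⟩
      rw [h] at this
      exact absurd this (Finset.notMem_empty i)
  obtain ⟨i0, hi0, hmax⟩ := Finset.exists_max_image S
    (fun i => W.valuation (algebraMap R Ω (Q.coeff i) * Y ^ i)) hSne
  have hval : ∀ i, Q.coeff i ≠ 0 → ∃ n : ℤ,
      W.valuation (algebraMap R Ω (Q.coeff i) * Y ^ i) = W.valuation Y ^ (ℓ * n + i) := by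
    intro i hi
    obtain ⟨n, hn⟩ := hR _ hi
    exact ⟨n, by rw [map_mul, map_pow, hn, zpow_add₀ g0, zpow_natCast]⟩
  rw [hS, Finset.mem_filter] at hi0
  obtain ⟨n0, hn0⟩ := hval i0 hi0.2
  have hlt : W.valuation (∑ i ∈ (Finset.range ℓ).erase i0, algebraMap R Ω (Q.coeff i) * Y ^ i) <
      W.valuation (algebraMap R Ω (Q.coeff i0) * Y ^ i0) := by
    have h0 : W.valuation (algebraMap R Ω (Q.coeff i0) * Y ^ i0) ≠ 0 := by
      rw [hn0]; exact zpow_ne_zero _ g0
    refine Valuation.map_sum_lt _ h0 fun i hi => ?_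
    rw [Finset.mem_erase] at hi
    by_cases h1 : Q.coeff i = 0
    · rw [h1, map_zero, zero_mul, map_zero]
      exact zero_lt_iff.2 h0
    · have h2 := hmax i (by rw [hS]; exact Finset.mem_filter.2 ⟨hi.2, h1⟩)
      refine lt_of_le_of_ne h2 fun h3 => ?_
      obtain ⟨n, hn⟩ := hval i h1
      rw [hn, hn0] at h3
      have h4 := zpow_inj g0 hY1 h3
      apply hi.1
      have hi' := Finset.mem_range.1 hi.2
      have hi0' := Finset.mem_range.1 hi0.1
      have h5 : (ℓ : ℤ) * (n - n0) = i0 - i := by linear_combination h4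
      have h6 : (ℓ : ℤ) ∣ (i0 : ℤ) - i := ⟨_, h5.symm⟩
      have h7 : (i0 : ℤ) - i = 0 := by
        apply Int.eq_zero_of_abs_lt_dvd h6
        rw [abs_lt]
        constructor <;> omega
      omega
  refine ⟨ℓ * n0 + i0, ?_⟩
  rw [← hn0, hsum, ← Finset.add_sum_erase _ _ hi0.1]
  exact Valuation.map_add_eq_of_lt_left _ hlt

omit [IsAlgClosed κ] in
theorem prod_near_one {ι : Type} (s : Finset ι) (f : ι → Ω)
    (h : ∀ i ∈ s, W.valuation (f i - 1) < 1) : W.valuation (∏ i ∈ s, f i - 1) < 1 := by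
  classical
  induction s using Finset.induction_on with
  | empty => rw [Finset.prod_empty, sub_self, map_zero]; exact zero_lt_one
  | insert a s ha ih =>
    rw [Finset.prod_insert ha]
    have h1 := h a (Finset.mem_insert_self a s)
    have h2 := ih (fun i hi => h i (Finset.mem_insert_of_mem hi))
    have h3 : f a * ∏ i ∈ s, f i - 1 = (f a - 1) * (∏ i ∈ s, f i - 1) + (f a - 1) +
      (∏ i ∈ s, f i - 1) := by ring
    rw [h3]
    refine (Valuation.map_add _ _ _).trans_lt (max_lt ((Valuation.map_add _ _ _).trans_lt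
      (max_lt ?_ h1)) h2)
    rw [map_mul]
    calc _ ≤ 1 * W.valuation (∏ i ∈ s, f i - 1) :=
          mul_le_mul_of_nonneg_right h1.le zero_le
      _ < 1 := by rwa [one_mul]

end

theorem isU_of_val {Ω : Type} [Field Ω] {W : ValuationSubring Ω} {z π : Ω}
    (hπ : W.valuation π ≠ 0) (h : ∃ n : ℤ, W.valuation z = W.valuation π ^ n) :
    ∃ n : ℤ, IsU W (z / π ^ n) := by
  obtain ⟨n, hn⟩ := h
  refine ⟨n, isU_iff.2 ?_⟩
  rw [map_div₀, map_zpow₀, hn, div_self (zpow_ne_zero n hπ)]

theorem k0 : S_K0 := by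
  intro ℓ _ κ R Ω _ _ _ _ _ _ _ _ _ _ x hx B hB hBne Y hY W hc hW
  classical
  have hprime : ℓ.Prime := Fact.out
  have hℓ : 0 < ℓ := hprime.pos
  have : Algebra.IsAlgebraic R Ω := IsAlgClosure.isAlgebraic
  have hxa : ∀ a : κ, algebraMap R Ω x - algebraMap κ Ω a ≠ 0 := by
    intro a h0
    rw [IsScalarTower.algebraMap_apply κ R Ω, ← map_sub, FaithfulSMul.algebraMap_eq_zero_iff,
      sub_eq_zero] at h0
    apply hx.trans
    rw [h0]
    exact isAlgebraic_algebraMap a
  have hYR : Y ^ ℓ = algebraMap R Ω (∏ e ∈ B, (x - algebraMap κ R e)) := by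
    rw [hY, map_prod]
    refine Finset.prod_congr rfl fun e _ => ?_
    rw [map_sub, ← IsScalarTower.algebraMap_apply]
  have hY0 : Y ≠ 0 := by
    rintro rfl
    rw [zero_pow hℓ.ne'] at hY
    obtain ⟨e, -, he⟩ := Finset.prod_eq_zero_iff.1 hY.symm
    exact hxa e he
  rcases place_or hc hx hW with ⟨b, hb, hb'⟩ | ⟨h1, h1'⟩
  · have g0 : W.valuation (algebraMap R Ω x - algebraMap κ Ω b) ≠ 0 :=
      (_root_.map_ne_zero _).2 (hxa b)
    have hR := val_R hc hx (W.valuation (algebraMap R Ω x - algebraMap κ Ω b)) g0 (fun a => by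
      by_cases hab : a = b
      · exact ⟨1, by rw [hab, zpow_one]⟩
      · exact ⟨0, by rw [hb' a hab, zpow_zero]⟩)
    by_cases hbB : b ∈ B
    · -- branch point
      have hYv : W.valuation Y ^ ℓ = W.valuation (algebraMap R Ω x - algebraMap κ Ω b) := by
        rw [← map_pow, hY, map_prod, ← Finset.mul_prod_erase _ _ hbB, Finset.prod_eq_one, mul_one]
        intro e he
        exact hb' e (Finset.ne_of_mem_erase he)
      have hYv0 : W.valuation Y ≠ 0 := (_root_.map_ne_zero _).2 hY0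
      have hY1 : W.valuation Y < 1 := by
        by_contra h
        rw [not_lt] at h
        have := one_le_pow₀ h (n := ℓ)
        rw [hYv] at this
        exact absurd hb (not_lt.2 this)
      refine ⟨Y, hY1, hY0, Or.inl ⟨b, hbB, rfl, ?_⟩, fun z hz hz0 => ?_⟩
      · rw [isU_iff, map_div₀, map_pow, hYv, div_self g0]
      · refine isU_of_val hYv0 (val_branch hℓ hYR hY0 hY1 (fun z hz => ?_) z hz hz0)
        obtain ⟨n, hn⟩ := hR z hz
        exact ⟨n, by rw [hn, ← hYv, zpow_mul, zpow_natCast]⟩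
    · refine ⟨algebraMap R Ω x - algebraMap κ Ω b, hb, hxa b, Or.inr (Or.inl ⟨b, hbB, rfl⟩),
        fun z hz hz0 => ?_⟩
      have hbe : ∀ e ∈ B, b - e ≠ 0 := by
        intro e he h0
        rw [sub_eq_zero] at h0
        exact hbB (h0 ▸ he)
      have ha0 : (∏ e ∈ B, (b - e) : κ) ≠ 0 := Finset.prod_ne_zero_iff.2 hbe
      refine isU_of_val g0 (val_adjoin hc hℓ ha0 hYR g0 hb hR ?_ z hz hz0)
      have h2 : algebraMap R Ω (∏ e ∈ B, (x - algebraMap κ R e)) -
          algebraMap κ Ω (∏ e ∈ B, (b - e)) = algebraMap κ Ω (∏ e ∈ B, (b - e)) *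
          (∏ e ∈ B, ((algebraMap R Ω x - algebraMap κ Ω e) / algebraMap κ Ω (b - e)) - 1) := by
        rw [← hYR, hY, mul_sub, mul_one, Finset.prod_div_distrib, ← map_prod, mul_div_cancel₀]
        rwa [Ne, FaithfulSMul.algebraMap_eq_zero_iff]
      rw [h2, map_mul, val_const hc ha0, one_mul]
      refine prod_near_one B _ fun e he => ?_
      have h3 : algebraMap κ Ω (b - e) ≠ 0 := by
        rw [Ne, FaithfulSMul.algebraMap_eq_zero_iff]
        exact hbe e he
      have h4 : (algebraMap R Ω x - algebraMap κ Ω e) / algebraMap κ Ω (b - e) - 1 =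
          (algebraMap R Ω x - algebraMap κ Ω b) / algebraMap κ Ω (b - e) := by
        rw [div_sub_one h3]
        congr 1
        rw [map_sub]
        ring
      rw [h4, map_div₀, val_const hc (hbe e he), div_one]
      exact hb
  · -- infinity
    have hx0 : algebraMap R Ω x ≠ 0 := by
      have := hxa 0
      rwa [map_zero, sub_zero] at this
    have hv0 : W.valuation (algebraMap R Ω x) ≠ 0 := (_root_.map_ne_zero _).2 hx0
    have g0 : W.valuation (algebraMap R Ω x)⁻¹ ≠ 0 := (_root_.map_ne_zero _).2 (inv_ne_zero hx0)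
    have g1 : W.valuation (algebraMap R Ω x)⁻¹ < 1 := by
      rw [map_inv₀]
      exact inv_lt_one_of_one_lt₀ h1
    have hR := val_R hc hx (W.valuation (algebraMap R Ω x)⁻¹) g0 (fun a => ⟨-1, by
      rw [h1' a, map_inv₀, zpow_neg, zpow_one, inv_inv]⟩)
    refine ⟨(algebraMap R Ω x)⁻¹, g1, inv_ne_zero hx0, Or.inr (Or.inr rfl), fun z hz hz0 => ?_⟩
    obtain ⟨k, hk⟩ := hB
    have hxR0 : x ≠ 0 := by
      rintro rfl
      exact hx0 (map_zero _)
    have hY1 : (Y / algebraMap R Ω x ^ k) ^ ℓ =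
        algebraMap R Ω ((∏ e ∈ B, (x - algebraMap κ R e)) / x ^ B.card) := by
      rw [div_pow, hYR, map_div₀, map_pow, ← pow_mul, mul_comm k ℓ, ← hk]
    have hmem : z ∈ IntermediateField.adjoin R {Y / algebraMap R Ω x ^ k} := by
      have h2 : IntermediateField.adjoin R {Y} ≤
          IntermediateField.adjoin R {Y / algebraMap R Ω x ^ k} := by
        rw [IntermediateField.adjoin_simple_le_iff]
        have h3 : Y = (Y / algebraMap R Ω x ^ k) * algebraMap R Ω x ^ k := by
          rw [div_mul_cancel₀]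
          exact pow_ne_zero k hx0
        have h5 : (Y / algebraMap R Ω x ^ k) * algebraMap R Ω x ^ k ∈
            IntermediateField.adjoin R {Y / algebraMap R Ω x ^ k} :=
          mul_mem (IntermediateField.mem_adjoin_simple_self R _)
            (pow_mem (IntermediateField.algebraMap_mem _ _) k)
        rwa [← h3] at h5
      exact h2 hz
    refine isU_of_val g0 (val_adjoin hc hℓ (one_ne_zero (α := κ)) hY1 g0 g1 hR ?_ z hmem hz0)
    have h2 : algebraMap R Ω ((∏ e ∈ B, (x - algebraMap κ R e)) / x ^ B.card) -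
        algebraMap κ Ω 1 =
        ∏ e ∈ B, ((algebraMap R Ω x - algebraMap κ Ω e) / algebraMap R Ω x) - 1 := by
      rw [map_div₀, map_pow, ← hYR, hY, map_one, Finset.prod_div_distrib, Finset.prod_const]
    rw [h2]
    refine prod_near_one B _ fun e he => ?_
    have h4 : (algebraMap R Ω x - algebraMap κ Ω e) / algebraMap R Ω x - 1 =
        -(algebraMap κ Ω e * (algebraMap R Ω x)⁻¹) := by
      field_simp
      ring
    rw [h4, Valuation.map_neg, map_mul]
    calc _ ≤ 1 * W.valuation (algebraMap R Ω x)⁻¹ :=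
          mul_le_mul_of_nonneg_right ((W.valuation_le_one_iff _).2 (hc e)) zero_le
      _ < 1 := by rwa [one_mul]

end Pool.Agent.Y809.PS
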