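import Pool.Agent.Y157.PS.Stm2

/-!
The valuation rings of the finite extensions are complete discrete valuation rings.
-/

set_option autoImplicit false
set_option linter.all false

open Polynomial FF

namespace Pool.Agent.Y809.PS

open Pool.Agent.Y157.PS

/-- completeness in terms of divisibility -/
def PC {A : Type} [CommRing A] (a : A) : Prop :=
  ∀ f : ℕ → A, (∀ m n, m ≤ n → a ^ m ∣ f m - f n) → ∃ L, ∀ n, a ^ n ∣ f n - L

theorem PC_of_complete {A : Type} [CommRing A] {I : Ideal A} [IsPrecomplete I A] {a : A}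
    (h : I = Ideal.span {a}) : PC a := by
  intro f hf
  have hI : ∀ (n : ℕ) (x y : A), x ≡ y [SMOD (I ^ n • ⊤ : Submodule A A)] ↔ a ^ n ∣ x - y := by
    intro n x y
    rw [SModEq.sub_mem, smul_eq_mul, Ideal.mul_top, h, Ideal.span_singleton_pow,
      Ideal.mem_span_singleton]
  obtain ⟨L, hL⟩ := IsPrecomplete.prec' (I := I) f (fun {m n} hmn => (hI m _ _).2 (hf m n hmn))
  exact ⟨L, fun n => (hI n _ _).1 (hL n)⟩

theorem PC_free {A B : Type} [CommRing A] [CommRing B] [Algebra A B] {ι : Type} [Finite ι]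
    (b : Module.Basis ι A B) {a : A} (h : PC a) : PC (algebraMap A B a) := by
  have : Fintype ι := Fintype.ofFinite ι
  have hI : ∀ (n : ℕ) (x : B), algebraMap A B a ^ n ∣ x ↔ ∀ i, a ^ n ∣ b.repr x i := by
    intro n x
    constructor
    · rintro ⟨y, rfl⟩ i
      rw [← map_pow, ← Algebra.smul_def, map_smul]
      exact ⟨b.repr y i, rfl⟩
    · intro hx
      choose c hc using hx
      refine ⟨∑ i, c i • b i, ?_⟩
      rw [← map_pow, ← Algebra.smul_def, Finset.smul_sum]
      conv_lhs => rw [← b.sum_repr x]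
      refine Finset.sum_congr rfl fun i _ => ?_
      rw [hc i, mul_smul]
  intro f hf
  have h1 : ∀ i, ∃ L, ∀ n, a ^ n ∣ b.repr (f n) i - L := by
    intro i
    refine h (fun n => b.repr (f n) i) fun m n hmn => ?_
    have := (hI m _).1 (hf m n hmn) i
    rwa [map_sub] at this
  choose L hL using h1
  refine ⟨∑ i, L i • b i, fun n => (hI n _).2 fun i => ?_⟩
  rw [map_sub, Finsupp.sub_apply, b.repr_sum_self]
  exact hL i n

theorem complete_of_PC {B : Type} [CommRing B] [IsDomain B] [IsDiscreteValuationRing B] {a : B}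
    (ha0 : a ≠ 0) (ha : a ∈ IsLocalRing.maximalIdeal B) (h : PC a) :
    IsAdicComplete (IsLocalRing.maximalIdeal B) B := by
  obtain ⟨ϖ, hϖ⟩ := IsDiscreteValuationRing.exists_irreducible B
  obtain ⟨e, u, hu⟩ := IsDiscreteValuationRing.eq_unit_mul_pow_irreducible ha0 hϖ
  have hI : ∀ (n : ℕ) (x y : B),
      x ≡ y [SMOD (IsLocalRing.maximalIdeal B ^ n • ⊤ : Submodule B B)] ↔ ϖ ^ n ∣ x - y := by
    intro n x y
    rw [SModEq.sub_mem, smul_eq_mul, Ideal.mul_top, hϖ.maximalIdeal_eq,
      Ideal.span_singleton_pow, Ideal.mem_span_singleton]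
  have he : 1 ≤ e := by
    by_contra h0
    have h1 : e = 0 := by omega
    rw [h1, pow_zero, mul_one] at hu
    rw [hu] at ha
    exact (IsLocalRing.mem_maximalIdeal _).1 ha u.isUnit
  have hdvd : ∀ (n : ℕ) (x : B), a ^ n ∣ x ↔ ϖ ^ (e * n) ∣ x := by
    intro n x
    rw [hu, mul_pow, ← pow_mul, ← Units.val_pow_eq_pow_val]
    exact (Units.isUnit _).mul_left_dvd
  have hH : IsHausdorff (IsLocalRing.maximalIdeal B) B := by
    refine ⟨fun x hx => ?_⟩
    by_contra hx0
    obtain ⟨m, v, hv⟩ := IsDiscreteValuationRing.eq_unit_mul_pow_irreducible hx0 hϖ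
    have h4 := (hI (m + 1) _ _).1 (hx (m + 1))
    rw [sub_zero, hv, pow_succ] at h4
    have h5 : ϖ ^ m * ϖ ∣ ϖ ^ m * v := by rwa [mul_comm (v : B)] at h4
    have h6 : ϖ ∣ v := by
      rwa [mul_dvd_mul_iff_left (pow_ne_zero m hϖ.ne_zero)] at h5
    exact hϖ.not_isUnit (isUnit_of_dvd_unit h6 v.isUnit)
  have hP : IsPrecomplete (IsLocalRing.maximalIdeal B) B := by
    refine ⟨fun f hf => ?_⟩
    have hf' : ∀ m n, m ≤ n → ϖ ^ m ∣ f m - f n := fun m n hmn => (hI _ _ _).1 (hf hmn)
    obtain ⟨L, hL⟩ := h (fun n => f (e * n)) (fun m n hmn =>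
      (hdvd _ _).2 (hf' _ _ (Nat.mul_le_mul_left e hmn)))
    refine ⟨L, fun n => (hI _ _ _).2 ?_⟩
    have hle : n ≤ e * n := Nat.le_mul_of_pos_left n he
    have h1 := hf' n (e * n) hle
    have h2 := (pow_dvd_pow ϖ hle).trans ((hdvd _ _).1 (hL n))
    have h3 : f n - L = (f n - f (e * n)) + (f (e * n) - L) := by ring
    rw [h3]
    exact dvd_add h1 h2
  exact { hH, hP with }

theorem da : S_DA := by
  intro A k κ _ _ _ _ _ _ _ _ _ V hV k' hfin
  have h1 := hV.compl
  have h2 := hV.frac
  have h3 := hV.char0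
  have h4 := hV.closure
  have : Algebra.IsAlgebraic k κ := IsAlgClosure.isAlgebraic
  haveI : IsScalarTower A k' κ := IsScalarTower.of_algebraMap_eq (fun _ => rfl)
  set B := V.comap (algebraMap k' κ) with hB
  have hmem : ∀ x : k', x ∈ B ↔ IsIntegral A x := by
    intro x
    rw [hB, ValuationSubring.mem_comap, hV.int]
    exact isIntegral_algebraMap_iff (algebraMap k' κ).injective
  have hA : ∀ a : A, algebraMap A k' a ∈ B := fun a => (hmem _).2 isIntegral_algebraMap
  letI : Algebra A B := ((algebraMap A k').codRestrict B.toSubring hA).toAlgebra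
  haveI : IsScalarTower A B k' := IsScalarTower.of_algebraMap_eq (fun _ => rfl)
  haveI : IsIntegralClosure B A k' :=
    { algebraMap_injective := Subtype.val_injective
      isIntegral_iff := by
        intro x
        rw [← hmem]
        exact ⟨fun h => ⟨⟨x, h⟩, rfl⟩, fun ⟨y, hy⟩ => hy ▸ y.2⟩ }
  have : Module.Finite A B := IsIntegralClosure.finite A k k' B
  have : IsDedekindDomain B := IsIntegralClosure.isDedekindDomain A k k' B
  have hinj : Function.Injective (algebraMap A B) := by
    intro x y hxy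
    have h5 : algebraMap A k' x = algebraMap A k' y := congrArg (Subtype.val) hxy
    rw [IsScalarTower.algebraMap_eq A k k'] at h5
    exact IsFractionRing.injective A k ((algebraMap k k').injective h5)
  have hint : Algebra.IsIntegral A B := IsIntegralClosure.isIntegral_algebra A k'
  have hnf : ¬ IsField B := by
    intro hf
    exact IsDiscreteValuationRing.not_isField A (isField_of_isIntegral_of_isField hinj hf)
  have hnoeth : IsNoetherianRing B := inferInstance
  have hdvr : IsDiscreteValuationRing B := by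
    have htf : IsDiscreteValuationRing B ↔ ValuationRing B :=
      (IsDiscreteValuationRing.TFAE B hnf).out 0 1
    exact htf.2 inferInstance
  refine ⟨hdvr, ?_⟩
  obtain ⟨ϖ, hϖ⟩ := IsDiscreteValuationRing.exists_irreducible A
  have : FaithfulSMul A B := (faithfulSMul_iff_algebraMap_injective A B).2 hinj
  have : Module.IsTorsionFree A B := inferInstance
  have : Module.Free A B := inferInstance
  have hPC := PC_free (Module.Free.chooseBasis A B) (PC_of_complete hϖ.maximalIdeal_eq)
  refine complete_of_PC ?_ ?_ hPC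
  · intro h0
    exact hϖ.ne_zero (hinj (h0.trans (map_zero _).symm))
  · rw [IsLocalRing.mem_maximalIdeal]
    intro hu
    obtain ⟨b, hb⟩ := hu.exists_right_inv
    have h6 : (algebraMap A k' ϖ) * (b : k') = 1 := congrArg Subtype.val hb
    have hk0 : algebraMap A k ϖ ≠ 0 := by
      rw [Ne, FaithfulSMul.algebraMap_eq_zero_iff]
      exact hϖ.ne_zero
    have h7 : (b : k') = algebraMap k k' (algebraMap A k ϖ)⁻¹ := by
      rw [map_inv₀, ← IsScalarTower.algebraMap_apply A k k']
      exact eq_inv_of_mul_eq_one_right h6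
    have h8 : IsIntegral A (algebraMap A k ϖ)⁻¹ := by
      have h9 := (hmem _).1 b.2
      rw [h7] at h9
      exact (isIntegral_algebraMap_iff (algebraMap k k').injective).1 h9
    obtain ⟨y, hy⟩ := IsIntegrallyClosed.isIntegral_iff.1 h8
    have h10 : ϖ * y = 1 := by
      apply IsFractionRing.injective A k
      rw [map_mul, hy, map_one, mul_inv_cancel₀ hk0]
    exact hϖ.not_isUnit (IsUnit.of_mul_eq_one _ h10)

end Pool.Agent.Y809.PS
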