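import Pool.Agent.Y157.PS.Stm2

/-!
Valuation rings of `κ(x, Y)`: preparations.
-/

set_option autoImplicit false
set_option linter.all false

open Polynomial FF

namespace Pool.Agent.Y809.PS

open Pool.Agent.Y157.PS

theorem isU_iff {K : Type} [Field K] {W : ValuationSubring K} {x : K} :
    IsU W x ↔ W.valuation x = 1 := by
  constructor
  · rintro ⟨h0, h1, h2⟩
    rw [← W.valuation_le_one_iff] at h1 h2
    rw [map_inv₀] at h2
    have h3 : W.valuation x ≠ 0 := (_root_.map_ne_zero _).2 h0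
    refine le_antisymm h1 ?_
    exact (inv_le_one₀ (zero_lt_iff.2 h3)).1 h2
  · intro h
    refine ⟨?_, ?_, ?_⟩
    · rintro rfl
      rw [map_zero] at h
      exact zero_ne_one h
    · rw [← W.valuation_le_one_iff, h]
    · rw [← W.valuation_le_one_iff, map_inv₀, h, inv_one]

section cyc

variable {Γ : Type} [LinearOrderedCommGroupWithZero Γ]

theorem zpow_inj {g : Γ} (h0 : g ≠ 0) (h1 : g < 1) {m n : ℤ} (h : g ^ m = g ^ n) : m = n := by
  have key : ∀ {m n : ℤ}, m < n → g ^ n < g ^ m := by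
    intro m n hmn
    obtain ⟨k, hk⟩ : ∃ k : ℕ, n = m + (k + 1 : ℕ) := ⟨(n - m - 1).toNat, by push_cast; omega⟩
    rw [hk, zpow_add₀ h0, zpow_natCast]
    have h2 : g ^ (k + 1) < 1 := pow_lt_one₀ zero_le h1 (Nat.succ_ne_zero k)
    have h3 : 0 < g ^ m := zero_lt_iff.2 (zpow_ne_zero m h0)
    calc g ^ m * g ^ (k + 1) < g ^ m * 1 := mul_lt_mul_of_pos_left h2 h3
      _ = g ^ m := mul_one _
  rcases lt_trichotomy m n with h2 | h2 | h2
  · exact absurd h.symm (key h2).ne
  · exact h2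
  · exact absurd h (key h2).ne

theorem zpow_lt {g : Γ} (h0 : g ≠ 0) (h1 : g < 1) {m n : ℤ} (hmn : m < n) : g ^ n < g ^ m := by
  obtain ⟨k, hk⟩ : ∃ k : ℕ, n = m + (k + 1 : ℕ) := ⟨(n - m - 1).toNat, by push_cast; omega⟩
  rw [hk, zpow_add₀ h0, zpow_natCast]
  have h2 : g ^ (k + 1) < 1 := pow_lt_one₀ zero_le h1 (Nat.succ_ne_zero k)
  have h3 : 0 < g ^ m := zero_lt_iff.2 (zpow_ne_zero m h0)
  calc g ^ m * g ^ (k + 1) < g ^ m * 1 := mul_lt_mul_of_pos_left h2 h3
    _ = g ^ m := mul_one _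

theorem zpow_le {g : Γ} (h0 : g ≠ 0) (h1 : g < 1) {m n : ℤ} (hmn : m ≤ n) : g ^ n ≤ g ^ m := by
  rcases hmn.lt_or_eq with h | h
  · exact (zpow_lt h0 h1 h).le
  · rw [h]

theorem of_zpow_lt {g : Γ} (h0 : g ≠ 0) (h1 : g < 1) {m n : ℤ} (h : g ^ n < g ^ m) : m < n := by
  by_contra h2
  exact absurd h (not_lt.2 (zpow_le h0 h1 (not_lt.1 h2)))

theorem prod_zpow {ι : Type} (g : Γ) (h0 : g ≠ 0) (f : ι → Γ) (s : Multiset ι)
    (h : ∀ a ∈ s, ∃ n : ℤ, f a = g ^ n) : ∃ n : ℤ, (s.map f).prod = g ^ n := by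
  induction s using Multiset.induction_on with
  | empty => exact ⟨0, by simp⟩
  | cons a s ih =>
    obtain ⟨n, hn⟩ := h a (Multiset.mem_cons_self a s)
    obtain ⟨m, hm⟩ := ih (fun b hb => h b (Multiset.mem_cons_of_mem hb))
    exact ⟨n + m, by rw [Multiset.map_cons, Multiset.prod_cons, hn, hm, zpow_add₀ h0]⟩

end cyc

section

variable {κ R Ω : Type} [Field κ] [IsAlgClosed κ] [Field R] [Field Ω] [Algebra κ R]
  [Algebra R Ω] [Algebra κ Ω] [IsScalarTower κ R Ω] {W : ValuationSubring Ω}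
  (hc : ∀ c : κ, algebraMap κ Ω c ∈ W)

omit [IsAlgClosed κ] in
include hc in
theorem val_const {c : κ} (h : c ≠ 0) : W.valuation (algebraMap κ Ω c) = 1 := by
  refine isU_iff.1 ⟨?_, hc c, ?_⟩
  · rwa [Ne, FaithfulSMul.algebraMap_eq_zero_iff]
  · rw [← map_inv₀]
    exact hc _

include hc in
theorem val_poly (X : Ω) (g : W.ValueGroup) (h0 : g ≠ 0)
    (h : ∀ a : κ, ∃ n : ℤ, W.valuation (X - algebraMap κ Ω a) = g ^ n) (p : κ[X]) (hp : p ≠ 0) :
    ∃ n : ℤ, W.valuation (aeval X p) = g ^ n := by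
  have hs := (IsAlgClosed.splits p).eq_prod_roots
  obtain ⟨n, hn⟩ := prod_zpow g h0 (fun a => W.valuation (X - algebraMap κ Ω a)) p.roots
    (fun a _ => h a)
  refine ⟨n, ?_⟩
  rw [hs, map_mul, aeval_C, map_mul, val_const hc (leadingCoeff_ne_zero.2 hp), one_mul,
    map_multiset_prod, map_multiset_prod, Multiset.map_map, Multiset.map_map, ← hn]
  congr 1
  apply Multiset.map_congr rfl
  intro a _
  simp

omit [IsAlgClosed κ] in
theorem RatF_rep {x : R} (hx : RatF κ x) (z : R) :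
    ∃ r s : κ[X], z = aeval x r / aeval x s := by
  have h : z ∈ IntermediateField.adjoin κ {x} := by rw [hx.gen]; trivial
  exact (IntermediateField.mem_adjoin_simple_iff κ z).1 h

include hc in
/-- the values of the elements of `κ(x)` -/
theorem val_R {x : R} (hx : RatF κ x) (g : W.ValueGroup) (h0 : g ≠ 0)
    (h : ∀ a : κ, ∃ n : ℤ, W.valuation (algebraMap R Ω x - algebraMap κ Ω a) = g ^ n) (z : R)
    (hz : z ≠ 0) : ∃ n : ℤ, W.valuation (algebraMap R Ω z) = g ^ n := by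
  obtain ⟨r, s, hrs⟩ := RatF_rep hx z
  have hr : r ≠ 0 := by
    rintro rfl
    apply hz
    rw [hrs, map_zero, zero_div]
  have hs : s ≠ 0 := by
    rintro rfl
    apply hz
    rw [hrs, map_zero, div_zero]
  obtain ⟨n, hn⟩ := val_poly hc (algebraMap R Ω x) g h0 h r hr
  obtain ⟨m, hm⟩ := val_poly hc (algebraMap R Ω x) g h0 h s hs
  refine ⟨n - m, ?_⟩
  rw [hrs, map_div₀, ← aeval_algebraMap_apply, ← aeval_algebraMap_apply, map_div₀, hn, hm,
    zpow_sub₀ h0]

include hc in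
/-- the trace of `W` on `κ(x)` -/
theorem place_or {x : R} (hx : RatF κ x) (hW : ∃ z : R, algebraMap R Ω z ∉ W) :
    (∃ b : κ, W.valuation (algebraMap R Ω x - algebraMap κ Ω b) < 1 ∧
      ∀ a, a ≠ b → W.valuation (algebraMap R Ω x - algebraMap κ Ω a) = 1) ∨
    (1 < W.valuation (algebraMap R Ω x) ∧ ∀ a, W.valuation (algebraMap R Ω x -
      algebraMap κ Ω a) = W.valuation (algebraMap R Ω x)) := by
  by_cases hxW : algebraMap R Ω x ∈ W
  · left
    have h1 : ∃ b : κ, W.valuation (algebraMap R Ω x - algebraMap κ Ω b) < 1 := by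
      by_contra hcon
      push Not at hcon
      obtain ⟨z, hz⟩ := hW
      apply hz
      rw [← W.valuation_le_one_iff]
      have hz0 : z ≠ 0 := by
        rintro rfl
        apply hz
        rw [map_zero]
        exact W.zero_mem
      obtain ⟨n, hn⟩ := val_R hc hx (1 : W.ValueGroup) one_ne_zero (fun a => ⟨0, by
        rw [zpow_zero]
        refine le_antisymm ?_ (hcon a)
        rw [W.valuation_le_one_iff]
        exact sub_mem hxW (hc a)⟩) z hz0
      rw [hn, one_zpow]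
    obtain ⟨b, hb⟩ := h1
    refine ⟨b, hb, fun a hab => ?_⟩
    have h2 : algebraMap R Ω x - algebraMap κ Ω a =
        (algebraMap R Ω x - algebraMap κ Ω b) + algebraMap κ Ω (b - a) := by
      rw [map_sub]; ring
    have h3 := val_const hc (W := W) (sub_ne_zero.2 hab.symm)
    rw [h2, Valuation.map_add_eq_of_lt_right _ (by rw [h3]; exact hb), h3]
  · right
    have h1 : 1 < W.valuation (algebraMap R Ω x) := by
      rw [← not_le, W.valuation_le_one_iff]
      exact hxW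
    refine ⟨h1, fun a => ?_⟩
    rw [sub_eq_add_neg, Valuation.map_add_eq_of_lt_left]
    rw [Valuation.map_neg]
    exact lt_of_le_of_lt ((W.valuation_le_one_iff _).2 (hc a)) h1

end

end Pool.Agent.Y809.PS
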