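import Pool.Agent.Y809.PS.K0a

/-!
Valuation rings of `κ(x, Y)`: approximation at the unramified places.
-/

set_option autoImplicit false
set_option linter.all false

open Polynomial FF

namespace Pool.Agent.Y809.PS

open Pool.Agent.Y157.PS

section

variable {κ R Ω : Type} [Field κ] [IsAlgClosed κ] [Field R] [Field Ω] [Algebra κ R]
  [Algebra R Ω] [Algebra κ Ω] [IsScalarTower κ R Ω] {W : ValuationSubring Ω}
  (hc : ∀ c : κ, algebraMap κ Ω c ∈ W)

omit [IsAlgClosed κ] in
/-- an algebraic element is not larger than an element of `R` -/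
theorem alg_le {w : Ω} (hw : IsIntegral R w) : ∃ r : R, r ≠ 0 ∧
    W.valuation w ≤ W.valuation (algebraMap R Ω r) := by
  by_cases h1 : W.valuation w ≤ 1
  · exact ⟨1, one_ne_zero, by rw [map_one, map_one]; exact h1⟩
  rw [not_le] at h1
  have hw0 : W.valuation w ≠ 0 := fun h => by rw [h] at h1; exact absurd h1 (not_lt.2 zero_le)
  set P := minpoly R w with hP
  have hm : P.Monic := minpoly.monic hw
  have h2 : w ^ P.natDegree = -∑ i ∈ Finset.range P.natDegree, algebraMap R Ω (P.coeff i) * w ^ i := by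
    have h3 := minpoly.aeval R w
    rw [← hP, aeval_eq_sum_range, Finset.sum_range_succ, hm.coeff_natDegree, one_smul] at h3
    rw [eq_neg_iff_add_eq_zero, ← h3, add_comm]
    congr 1
    refine Finset.sum_congr rfl fun i _ => ?_
    rw [Algebra.smul_def]
  have hd : 0 < P.natDegree := minpoly.natDegree_pos hw
  have h4 : ∃ i ∈ Finset.range P.natDegree, W.valuation w ^ P.natDegree ≤
      W.valuation (algebraMap R Ω (P.coeff i)) * W.valuation w ^ i := by
    by_contra hcon
    push Not at hcon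
    have h5 : W.valuation (∑ i ∈ Finset.range P.natDegree,
        algebraMap R Ω (P.coeff i) * w ^ i) < W.valuation w ^ P.natDegree := by
      refine Valuation.map_sum_lt _ (pow_ne_zero _ hw0) fun i hi => ?_
      rw [map_mul, map_pow]
      exact hcon i hi
    rw [← map_pow, h2, Valuation.map_neg] at h5
    exact lt_irrefl _ h5
  obtain ⟨i, hi, h5⟩ := h4
  rw [Finset.mem_range] at hi
  obtain ⟨k, hk⟩ : ∃ k, P.natDegree = i + (k + 1) := ⟨P.natDegree - i - 1, by omega⟩
  have h6 : W.valuation w ^ (k + 1) ≤ W.valuation (algebraMap R Ω (P.coeff i)) := by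
    rw [hk, pow_add, mul_comm (W.valuation w ^ i)] at h5
    exact le_of_mul_le_mul_right h5 (zero_lt_iff.2 (pow_ne_zero i hw0))
  refine ⟨P.coeff i, ?_, ?_⟩
  · intro h7
    rw [h7, map_zero, map_zero, le_zero_iff] at h6
    exact pow_ne_zero _ hw0 h6
  · refine le_trans ?_ h6
    calc W.valuation w = W.valuation w ^ 1 := (pow_one _).symm
      _ ≤ W.valuation w ^ (k + 1) := pow_le_pow_right₀ h1.le (by omega)

/-- a multiset product of elements `≥ 1` -/
theorem one_le_mprod {ι Γ : Type} [LinearOrderedCommGroupWithZero Γ] (f : ι → Γ) (s : Multiset ι)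
    (h : ∀ a ∈ s, 1 ≤ f a) : 1 ≤ (s.map f).prod := by
  induction s using Multiset.induction_on with
  | empty => simp
  | cons a s ih =>
    rw [Multiset.map_cons, Multiset.prod_cons]
    exact one_le_mul_of_one_le_of_one_le (h a (Multiset.mem_cons_self a s))
      (ih fun b hb => h b (Multiset.mem_cons_of_mem hb))

theorem root_near {ℓ : ℕ} (hℓ : 0 < ℓ) {Y : Ω} {a0 : κ}
    (h : W.valuation (Y ^ ℓ - algebraMap κ Ω a0) < 1) :
    ∃ c : κ, c ^ ℓ = a0 ∧ W.valuation (Y - algebraMap κ Ω c) < 1 := by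
  have hm : (X ^ ℓ - C a0 : κ[X]).Monic := monic_X_pow_sub_C a0 hℓ.ne'
  have hs := (IsAlgClosed.splits (X ^ ℓ - C a0 : κ[X])).eq_prod_roots_of_monic hm
  have h1 : aeval Y (X ^ ℓ - C a0 : κ[X]) = Y ^ ℓ - algebraMap κ Ω a0 := by simp
  by_contra hcon
  push Not at hcon
  have h2 : 1 ≤ W.valuation (aeval Y (X ^ ℓ - C a0 : κ[X])) := by
    rw [hs, map_multiset_prod, map_multiset_prod, Multiset.map_map, Multiset.map_map]
    have h3 := one_le_mprod (fun a => W.valuation (Y - algebraMap κ Ω a))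
      (X ^ ℓ - C a0 : κ[X]).roots (fun a ha => hcon a (by
        have h4 := (mem_roots hm.ne_zero).1 ha
        rw [IsRoot.def, eval_sub, eval_pow, eval_X, eval_C] at h4
        exact sub_eq_zero.1 h4))
    refine h3.trans_eq ?_
    congr 1
    apply Multiset.map_congr rfl
    intro a _
    simp
  rw [h1] at h2
  exact absurd h (not_lt.2 h2)

include hc in
/-- approximation of a unit root by elements of `R` -/
theorem approx [CharZero κ] {ℓ : ℕ} (hℓ : 0 < ℓ) {Y : Ω} {G : R} {a0 : κ} (ha0 : a0 ≠ 0)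
    (hY : Y ^ ℓ = algebraMap R Ω G) {g : W.ValueGroup} (g0 : g ≠ 0) (g1 : g < 1)
    (hR : ∀ z : R, z ≠ 0 → ∃ n : ℤ, W.valuation (algebraMap R Ω z) = g ^ n)
    (hG : W.valuation (algebraMap R Ω G - algebraMap κ Ω a0) < 1) (n : ℕ) :
    ∃ t : R, W.valuation (Y - algebraMap R Ω t) ≤ g ^ (n + 1) := by
  obtain ⟨c, hca, hcY⟩ := root_near hℓ (Y := Y) (a0 := a0) (by rw [hY]; exact hG)
  have hc0 : c ≠ 0 := by
    rintro rfl
    rw [zero_pow hℓ.ne'] at hca
    exact ha0 hca.symm
  have hvc := val_const hc (W := W) hc0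
  have hvl : W.valuation (ℓ : Ω) = 1 := by
    have := val_const hc (W := W) (c := (ℓ : κ)) (by exact_mod_cast hℓ.ne')
    rwa [map_natCast] at this
  -- the Newton step
  have key : ∀ (t δ : Ω), W.valuation t = 1 → W.valuation δ ≤ 1 →
      ∃ E : Ω, W.valuation E ≤ 1 ∧
        (t + δ) ^ ℓ = t ^ ℓ + ℓ * t ^ (ℓ - 1) * δ + E * δ ^ 2 := by
    intro t δ ht hδ
    obtain ⟨E, hE⟩ := Polynomial.powAddExpansion (⟨t, (W.valuation_le_one_iff t).1 ht.le⟩ : W)
      ⟨δ, (W.valuation_le_one_iff δ).1 hδ⟩ ℓ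
    refine ⟨E, (W.valuation_le_one_iff _).2 E.2, ?_⟩
    have := congrArg (Subtype.val) hE
    push_cast at this
    exact this
  have hder : ∀ t : Ω, W.valuation t = 1 → W.valuation ((ℓ : Ω) * t ^ (ℓ - 1)) = 1 := by
    intro t ht
    rw [map_mul, map_pow, hvl, ht, one_pow, mul_one]
  induction n with
  | zero =>
    refine ⟨algebraMap κ R c, ?_⟩
    rw [← IsScalarTower.algebraMap_apply, zero_add, pow_one]
    obtain ⟨E, hE1, hE⟩ := key (algebraMap κ Ω c) (Y - algebraMap κ Ω c) hvc hcY.le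
    set δ := Y - algebraMap κ Ω c with hδ
    have h1 : algebraMap κ Ω c + δ = Y := by rw [hδ]; ring
    rw [h1, hY, ← map_pow, hca] at hE
    have h2 : algebraMap R Ω G - algebraMap κ Ω a0 =
        δ * (ℓ * (algebraMap κ Ω c) ^ (ℓ - 1) + E * δ) := by linear_combination hE
    have h3 : W.valuation (ℓ * (algebraMap κ Ω c) ^ (ℓ - 1) + E * δ) = 1 := by
      rw [Valuation.map_add_eq_of_lt_left, hder _ hvc]
      rw [hder _ hvc, map_mul]
      calc W.valuation E * W.valuation δ ≤ 1 * W.valuation δ :=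
            mul_le_mul_of_nonneg_right hE1 zero_le
        _ < 1 := by rwa [one_mul]
    have h4 : W.valuation δ = W.valuation (algebraMap R Ω G - algebraMap κ Ω a0) := by
      rw [h2, map_mul, h3, mul_one]
    rw [h4]
    have h5 : algebraMap R Ω G - algebraMap κ Ω a0 = algebraMap R Ω (G - algebraMap κ R a0) := by
      rw [map_sub, ← IsScalarTower.algebraMap_apply]
    by_cases h6 : G - algebraMap κ R a0 = 0
    · rw [h5, h6, map_zero, map_zero]
      exact zero_le
    · obtain ⟨m, hm⟩ := hR _ h6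
      rw [h5] at hG ⊢
      rw [hm] at hG ⊢
      have h7 : g ^ m < g ^ (0 : ℤ) := by rw [zpow_zero]; exact hG
      have h8 := of_zpow_lt g0 g1 h7
      calc g ^ m ≤ g ^ (1 : ℤ) := zpow_le g0 g1 (by omega)
        _ = g := zpow_one g
  | succ n ih =>
    obtain ⟨t, ht⟩ := ih
    have hgn : g ^ (n + 1) < 1 := pow_lt_one₀ zero_le g1 (Nat.succ_ne_zero n)
    have hYv : W.valuation Y = 1 := by
      have h1 : Y = (Y - algebraMap κ Ω c) + algebraMap κ Ω c := by ring
      rw [h1, Valuation.map_add_eq_of_lt_right, hvc]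
      rw [hvc]
      exact hcY
    set T := algebraMap R Ω t with hT
    set δ := Y - T with hδ
    have hδ1 : W.valuation δ < 1 := lt_of_le_of_lt ht hgn
    have hTv : W.valuation T = 1 := by
      have h1 : T = Y - δ := by rw [hδ]; ring
      rw [h1, sub_eq_add_neg, Valuation.map_add_eq_of_lt_left, hYv]
      rw [hYv, Valuation.map_neg]
      exact hδ1
    obtain ⟨E, hE1, hE⟩ := key T δ hTv hδ1.le
    have h1 : T + δ = Y := by rw [hδ]; ring
    rw [h1, hY] at hE
    have hd := hder T hTv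
    have hd0 : (ℓ : Ω) * T ^ (ℓ - 1) ≠ 0 := by
      intro h0
      rw [h0, map_zero] at hd
      exact zero_ne_one hd
    refine ⟨t + (G - t ^ ℓ) / (ℓ * t ^ (ℓ - 1)), ?_⟩
    have h2 : Y - algebraMap R Ω (t + (G - t ^ ℓ) / (ℓ * t ^ (ℓ - 1))) =
        -(E * δ ^ 2 / ((ℓ : Ω) * T ^ (ℓ - 1))) := by
      rw [map_add, map_div₀, map_sub, map_pow, map_mul, map_pow, map_natCast, ← hT, hE]
      obtain ⟨D, hD⟩ : ∃ D : Ω, D = (ℓ : Ω) * T ^ (ℓ - 1) := ⟨_, rfl⟩
      rw [← hD] at hd0 ⊢
      have h3 : Y = T + δ := h1.symm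
      rw [h3]
      field_simp
      ring
    rw [h2, Valuation.map_neg, map_div₀, hd, div_one, map_mul, map_pow]
    calc W.valuation E * W.valuation δ ^ 2 ≤ 1 * W.valuation δ ^ 2 :=
          mul_le_mul_of_nonneg_right hE1 zero_le
      _ = W.valuation δ * W.valuation δ := by rw [one_mul, sq]
      _ ≤ g ^ (n + 1) * g ^ (n + 1) := mul_le_mul' ht ht
      _ = g ^ (n + 1) * g ^ n * g := by rw [mul_assoc, ← pow_succ]
      _ ≤ g ^ (n + 1) * 1 * g := by
          apply mul_le_mul_of_nonneg_right _ zero_le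
          exact mul_le_mul_of_nonneg_left (pow_le_one₀ zero_le g1.le) zero_le
      _ = g ^ (n + 1 + 1) := by rw [mul_one, ← pow_succ]

include hc in
/-- the values of the elements of `R(Y)` at an unramified place -/
theorem val_adjoin [CharZero κ] [Algebra.IsAlgebraic R Ω] {ℓ : ℕ} (hℓ : 0 < ℓ) {Y : Ω} {G : R}
    {a0 : κ} (ha0 : a0 ≠ 0) (hY : Y ^ ℓ = algebraMap R Ω G) {g : W.ValueGroup} (g0 : g ≠ 0)
    (g1 : g < 1) (hR : ∀ z : R, z ≠ 0 → ∃ n : ℤ, W.valuation (algebraMap R Ω z) = g ^ n)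
    (hG : W.valuation (algebraMap R Ω G - algebraMap κ Ω a0) < 1) (z : Ω)
    (hz : z ∈ IntermediateField.adjoin R {Y}) (hz0 : z ≠ 0) :
    ∃ n : ℤ, W.valuation z = g ^ n := by
  have hYi : IsIntegral R Y := Algebra.IsIntegral.isIntegral Y
  obtain ⟨P, hP⟩ : ∃ P : R[X], z = aeval Y P := by
    have h1 : z ∈ (IntermediateField.adjoin R {Y}).toSubalgebra := hz
    rw [IntermediateField.adjoin_simple_toSubalgebra_of_isAlgebraic hYi.isAlgebraic,
      Algebra.adjoin_singleton_eq_range_aeval] at h1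
    obtain ⟨P, hP⟩ := h1
    exact ⟨P, hP.symm⟩
  have hYv : W.valuation Y ≤ 1 := by
    have h2 : W.valuation (algebraMap R Ω G) = 1 := by
      have h1 : algebraMap R Ω G = (algebraMap R Ω G - algebraMap κ Ω a0) + algebraMap κ Ω a0 := by
        ring
      have hv := val_const hc (W := W) ha0
      rw [h1, Valuation.map_add_eq_of_lt_right, hv]
      rw [hv]
      exact hG
    by_contra h3
    rw [not_le] at h3
    have h4 : 1 < W.valuation Y ^ ℓ := one_lt_pow₀ h3 hℓ.ne'
    rw [← map_pow, hY, h2] at h4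
    exact lt_irrefl _ h4
  -- bound for the coefficients
  obtain ⟨N, hN⟩ : ∃ N : ℕ, ∀ i, W.valuation (algebraMap R Ω (P.coeff i)) ≤ g ^ (-(N : ℤ)) := by
    have h1 : ∀ i, ∃ N : ℕ, W.valuation (algebraMap R Ω (P.coeff i)) ≤ g ^ (-(N : ℤ)) := by
      intro i
      by_cases h2 : P.coeff i = 0
      · exact ⟨0, by rw [h2, map_zero, map_zero]; exact zero_le⟩
      · obtain ⟨n, hn⟩ := hR _ h2
        refine ⟨n.natAbs, ?_⟩
        rw [hn]
        exact zpow_le g0 g1 (by omega)
    choose f hf using h1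
    refine ⟨(Finset.range (P.natDegree + 1)).sup f, fun i => ?_⟩
    by_cases hi : i < P.natDegree + 1
    · refine (hf i).trans (zpow_le g0 g1 ?_)
      have : f i ≤ (Finset.range (P.natDegree + 1)).sup f :=
        Finset.le_sup (f := f) (Finset.mem_range.2 hi)
      omega
    · rw [coeff_eq_zero_of_natDegree_lt (by omega), map_zero, map_zero]
      exact zero_le
  -- a lower bound for the value of `z`
  obtain ⟨m, hm⟩ : ∃ m : ℤ, g ^ m ≤ W.valuation z := by
    obtain ⟨r, hr0, hr⟩ := alg_le (W := W) (w := z⁻¹) (Algebra.IsIntegral.isIntegral (R := R) _)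
    obtain ⟨n, hn⟩ := hR r hr0
    refine ⟨-n, ?_⟩
    rw [hn, map_inv₀] at hr
    have hz1 : 0 < W.valuation z := zero_lt_iff.2 ((_root_.map_ne_zero _).2 hz0)
    rw [zpow_neg]
    exact inv_le_of_inv_le₀ hz1 hr
  obtain ⟨t, ht⟩ := approx hc hℓ ha0 hY g0 g1 hR hG (N + (m + 1).toNat)
  have hTv : W.valuation (algebraMap R Ω t) ≤ 1 := by
    have h1 : algebraMap R Ω t = Y - (Y - algebraMap R Ω t) := by ring
    rw [h1]
    refine (Valuation.map_sub _ _ _).trans (max_le hYv (ht.trans (pow_le_one₀ zero_le g1.le)))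
  have hdiff : W.valuation (z - algebraMap R Ω (eval t P)) < W.valuation z := by
    have h1 : z - algebraMap R Ω (eval t P) = ∑ i ∈ Finset.range (P.natDegree + 1),
        algebraMap R Ω (P.coeff i) * (Y ^ i - (algebraMap R Ω t) ^ i) := by
      rw [hP, aeval_eq_sum_range, eval_eq_sum_range, map_sum, ← Finset.sum_sub_distrib]
      refine Finset.sum_congr rfl fun i _ => ?_
      rw [Algebra.smul_def, map_mul, map_pow]
      ring
    have h2 : ∀ i, W.valuation (Y ^ i - (algebraMap R Ω t) ^ i) ≤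
        W.valuation (Y - algebraMap R Ω t) := by
      intro i
      rw [← (Commute.all Y (algebraMap R Ω t)).geom_sum₂_mul, map_mul]
      calc _ ≤ 1 * W.valuation (Y - algebraMap R Ω t) := by
            apply mul_le_mul_of_nonneg_right _ zero_le
            refine Valuation.map_sum_le _ fun j _ => ?_
            rw [map_mul, map_pow, map_pow]
            exact mul_le_one₀ (pow_le_one₀ zero_le hYv) zero_le (pow_le_one₀ zero_le hTv)
        _ = _ := one_mul _
    have h3 : W.valuation (z - algebraMap R Ω (eval t P)) ≤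
        g ^ (-(N : ℤ)) * g ^ (N + (m + 1).toNat + 1) := by
      rw [h1]
      refine Valuation.map_sum_le _ fun i _ => ?_
      rw [map_mul]
      exact mul_le_mul' (hN i) ((h2 i).trans ht)
    refine h3.trans_lt (lt_of_lt_of_le ?_ hm)
    rw [← zpow_natCast, ← zpow_add₀ g0]
    apply zpow_lt g0 g1
    push_cast
    omega
  have hval : W.valuation (algebraMap R Ω (eval t P)) = W.valuation z := by
    have h1 : algebraMap R Ω (eval t P) = z + -(z - algebraMap R Ω (eval t P)) := by ring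
    rw [h1, Valuation.map_add_eq_of_lt_left]
    rw [Valuation.map_neg]
    exact hdiff
  have hne : eval t P ≠ 0 := by
    intro h0
    rw [h0, map_zero, map_zero] at hval
    exact (_root_.map_ne_zero (W.valuation)).2 hz0 hval.symm
  obtain ⟨n, hn⟩ := hR _ hne
  exact ⟨n, by rw [← hval, hn]⟩

end

end Pool.Agent.Y809.PS
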